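import Pool.Agent.Work.MP_9eb367_co.Part231

namespace Pool.Agent.Results.MP_9eb367_co.AlmostAvoid

/-- The permutation `π` of `{0, ..., n-1}` contains the pattern `σ`: at the positions picked out by
some strictly increasing map `f`, the entries of `π` are in the same relative order as those of
`σ`. -/
def Contains {k n : ℕ} (σ : Equiv.Perm (Fin k)) (π : Equiv.Perm (Fin n)) : Prop :=
  ∃ f : Fin k ↪o Fin n, ∀ i j, σ i < σ j ↔ π (f i) < π (f j)

/-- `π` `t`-almost avoids `β`: some permutation `ρ` obtained from `π` by deleting at most `t`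
entries and standardising (so `ρ` has length at least `n - t` and is contained in `π`) avoids
`β`. -/
def AlmostAvoids {k : ℕ} (β : Equiv.Perm (Fin k)) (t : ℕ) {n : ℕ} (π : Equiv.Perm (Fin n)) :
    Prop :=
  ∃ (m : ℕ) (ρ : Equiv.Perm (Fin m)), n ≤ m + t ∧ Contains ρ π ∧ ¬ Contains β ρ

/-- The generating function of the class of all permutations which `t`-almost avoid `β`. -/
noncomputable def genFun {k : ℕ} (β : Equiv.Perm (Fin k)) (t : ℕ) : PowerSeries ℚ :=
  PowerSeries.mk fun n => (Nat.card {π : Equiv.Perm (Fin n) // AlmostAvoids β t π} : ℚ)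

/-- `F` is rational in `x` and `√(1 - 4 x)`: with `s` the power series square root of `1 - 4 x`
with constant term `1`, there are polynomials `p`, `q`, `r` with `r ≠ 0` and
`F = p / r + (q / r) * s`. -/
def RationalInSqrt (F : PowerSeries ℚ) : Prop :=
  ∃ s : PowerSeries ℚ, s ^ 2 = 1 - 4 * PowerSeries.X ∧ PowerSeries.constantCoeff s = 1 ∧
    ∃ p q r : Polynomial ℚ, r ≠ 0 ∧
      (r : PowerSeries ℚ) * F = (p : PowerSeries ℚ) + (q : PowerSeries ℚ) * s

/-- The permutation `231`, in zero-based one-line notation `1 2 0`. -/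
def p231 : Equiv.Perm (Fin 3) := finRotate 3

/-- The permutation `321`, in zero-based one-line notation `2 1 0`. -/
def p321 : Equiv.Perm (Fin 3) := Fin.revPerm

theorem p231_values : p231 0 = 1 ∧ p231 1 = 2 ∧ p231 2 = 0 := by decide

theorem p321_values : p321 0 = 2 ∧ p321 1 = 1 ∧ p321 2 = 0 := by decide

theorem rationalInSqrt_of_inK {F : PowerSeries ℚ} (h : Pool.Agent.Work.MP_9eb367_co.InK F) :
    RationalInSqrt F := by
  obtain ⟨p, q, r, hr, h⟩ := h
  refine ⟨Pool.Agent.Work.MP_9eb367_co.S, Pool.Agent.Work.MP_9eb367_co.S_sq, ?_, p, q, r, hr, h⟩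
  unfold Pool.Agent.Work.MP_9eb367_co.S
  simp

/-- For every natural number `t`, the generating functions of `Av(231)^{+t}` and of `Av(321)^{+t}`
are both rational in `x` and `√(1 - 4 x)`. -/
theorem result (t : ℕ) : RationalInSqrt (genFun p231 t) ∧ RationalInSqrt (genFun p321 t) :=
  ⟨rationalInSqrt_of_inK (Pool.Agent.Work.MP_9eb367_co.seqK_perm_231 t),
    rationalInSqrt_of_inK (Pool.Agent.Work.MP_9eb367_co.seqK_perm_321 t)⟩

end Pool.Agent.Results.MP_9eb367_co.AlmostAvoid
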